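import Pool.Agent.Helper45.CF.GoalsB

/-!
# Project CF (MP_d97caa_an): packet CF-CUR
-/

open scoped ComplexOrder ZeroAtInfty Topology ComplexConjugate
open TopologicalSpace Filter

namespace Pool.Agent.Helper40.CF

open Pool.Agent.Helper45.CF

noncomputable section

variable {Y A : Type} [TopologicalSpace Y] [CompactSpace Y] [NonUnitalCStarAlgebra A]

/-- The map `(z, y) ↦ snoc z y`. -/
def snocC (Y : Type) [TopologicalSpace Y] (n : ℕ) : C((Fin n → Y) × Y, Fin (n + 1) → Y) where
  toFun p := Fin.snoc p.1 p.2
  continuous_toFun := Continuous.finSnoc continuous_fst continuous_snd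

/-- Currying. -/
def phiF (n : ℕ) (f : C(Fin (n + 1) → Y, A)) : C(Fin n → Y, C(Y, A)) :=
  ContinuousMap.curry (f.comp (snocC Y n))

/-- Uncurrying. -/
def psiF (n : ℕ) (g : C(Fin n → Y, C(Y, A))) : C(Fin (n + 1) → Y, A) where
  toFun z := g (fun l => z l.castSucc) (z (Fin.last n))
  continuous_toFun := by
    have h1 : Continuous fun z : Fin (n + 1) → Y => g (fun l => z l.castSucc) :=
      g.continuous.comp (continuous_pi fun l => continuous_apply _)
    exact h1.eval (continuous_apply _)

theorem phiF_apply (n : ℕ) (f : C(Fin (n + 1) → Y, A)) (z : Fin n → Y) (y : Y) :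
    phiF n f z y = f (Fin.snoc z y) := rfl

theorem psiF_apply (n : ℕ) (g : C(Fin n → Y, C(Y, A))) (z : Fin (n + 1) → Y) :
    psiF n g z = g (fun l => z l.castSucc) (z (Fin.last n)) := rfl

theorem psi_phi (n : ℕ) (f : C(Fin (n + 1) → Y, A)) : psiF n (phiF n f) = f := by
  apply ContinuousMap.ext
  intro z
  rw [psiF_apply, phiF_apply]
  congr 1
  funext l
  refine Fin.lastCases ?_ (fun l => ?_) l
  · rw [Fin.snoc_last]
  · rw [Fin.snoc_castSucc]

theorem phi_psi (n : ℕ) (g : C(Fin n → Y, C(Y, A))) : phiF n (psiF n g) = g := by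
  apply ContinuousMap.ext
  intro z
  apply ContinuousMap.ext
  intro y
  rw [phiF_apply, psiF_apply, Fin.snoc_last]
  congr 2
  funext l
  rw [Fin.snoc_castSucc]

/-- Packet CF-CUR. -/
theorem t : S_CUR := by
  intro Y A _ _ _ n
  refine ⟨{ toFun := phiF n
            map_smul' := fun c f => rfl
            map_zero' := rfl
            map_add' := fun f g => rfl
            map_mul' := fun f g => rfl
            map_star' := fun f => rfl },
    { toFun := psiF n
      map_smul' := fun c f => rfl
      map_zero' := rfl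
      map_add' := fun f g => rfl
      map_mul' := fun f g => rfl
      map_star' := fun f => rfl }, fun g z => rfl, fun f => psi_phi n f, fun g => phi_psi n g⟩

end

end Pool.Agent.Helper40.CF
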